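import Mathlib

/-!
# Smooth dg categories of finite type which are not Schur-finite: the statement
-/

set_option autoImplicit false

open CategoryTheory

namespace Pool.Agent.W484.SG

universe u v

section presented

/-- The relators of the group `⟨a, s, t | a² = 1, s t = t s, a (t a t⁻¹) = (t a t⁻¹) a,
s a s⁻¹ = a (t a t⁻¹)⟩`, with `x 0`, `x 1`, `x 2` for `a`, `s`, `t`. -/
def relators (x : Fin 3 → FreeGroup (Fin 3)) : Set (FreeGroup (Fin 3)) :=
  {x 0 * x 0, x 1 * x 2 * (x 2 * x 1)⁻¹,
    x 0 * (x 2 * x 0 * (x 2)⁻¹) * ((x 2 * x 0 * (x 2)⁻¹) * x 0)⁻¹,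
    x 1 * x 0 * (x 1)⁻¹ * (x 0 * (x 2 * x 0 * (x 2)⁻¹))⁻¹}

/-- The four relators. -/
def rels : Set (FreeGroup (Fin 3)) := relators FreeGroup.of

/-- The finitely presented group `⟨a, s, t | a² = 1, s t = t s, a (t a t⁻¹) = (t a t⁻¹) a,
s a s⁻¹ = a (t a t⁻¹)⟩` of Baumslag. -/
abbrev Gr : Type := PresentedGroup rels

end presented

section algebra

variable (k : Type) [Field k] (G : Type) [Group G] (n : ℕ)

/-- The group algebra of `G × ⋯ × G`, which is `k[G] ⊗ ⋯ ⊗ k[G]` (`n` factors). -/
abbrev Alg : Type := MonoidAlgebra k (Fin n → G)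

variable {n}

/-- The permutation of the coordinates. -/
def coord (σ : Equiv.Perm (Fin n)) : (Fin n → G) →* (Fin n → G) where
  toFun g i := g (σ.symm i)
  map_one' := rfl
  map_mul' _ _ := rfl

/-- The permutation of the factors of `k[G] ⊗ ⋯ ⊗ k[G]`. -/
noncomputable def swap (σ : Equiv.Perm (Fin n)) : Alg k G n →+* Alg k G n :=
  MonoidAlgebra.mapDomainRingHom k (coord G σ)

/-- The group generated by the commutators `x y - y x`. -/
def comms (R : Type) [Ring R] : AddSubgroup R := AddSubgroup.closure {z | ∃ x y, z = x * y - y * x}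

end algebra

section model

variable (k : Type) [Field k] (G : Type) [Group G] (n : ℕ)
  (C : Type u) [Category.{v} C] [Preadditive C]

/-- An object `X` with an action of the permutations, a map from the idempotents `e` of
`R = k[G] ⊗ ⋯ ⊗ k[G]` to the group `Hom (P, X)` which is compatible with the permutations, and a
homomorphism from this group to `R / [R, R]` which maps the class of `e` to the trace of `e`. -/
structure Model where
  /-- In the application `P = U k`. -/
  P : C
  /-- In the application `X = U (A ⊗ ⋯ ⊗ A)`. -/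
  X : C
  /-- The action of the permutations. -/
  perm : Equiv.Perm (Fin n) → (X ⟶ X)
  /-- The class of an idempotent. -/
  cls : ∀ e : Alg k G n, e * e = e → (P ⟶ X)
  /-- The classes are natural. -/
  natural : ∀ σ e he f hf, swap k G σ e = f → cls e he ≫ perm σ = cls f hf
  /-- The Chern character. -/
  trace : (P ⟶ X) →+ Alg k G n ⧸ comms (Alg k G n)
  /-- The Chern character of the class of an idempotent. -/
  trace_cls : ∀ e he, trace (cls e he) = QuotientAddGroup.mk e

variable {k G n C}

/-- The action of the element `∑ σ, c σ σ` of the group ring `ℚ[S n]`. -/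
noncomputable def act [Linear ℚ C] (m : Model k G n C) (c : Equiv.Perm (Fin n) → ℚ) : m.X ⟶ m.X :=
  ∑ σ, c σ • m.perm σ

end model

end Pool.Agent.W484.SG
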