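import Mathlib
import Pool.Agent.W484.SG.Stm

/-!
# A finitely presented group with many involutions: identities
-/

set_option autoImplicit false

namespace Pool.Agent.W484.SG

section identities

variable {G : Type*} [Group G] (a s t : G)

/-- The conjugates of `a`. -/
def cj (i : ℕ) : G := t ^ i * a * (t ^ i)⁻¹

lemma cj_zero : cj a t 0 = a := by simp [cj]

lemma cj_shift (i j : ℕ) : t ^ j * cj a t i * (t ^ j)⁻¹ = cj a t (j + i) := by
  simp [cj, pow_add, mul_assoc, mul_inv_rev]

lemma comm_shift {m : ℕ} (h : Commute a (cj a t m)) (j : ℕ) :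
    Commute (cj a t j) (cj a t (j + m)) := by
  have h1 := h.conj (t ^ j)
  rw [cj_shift] at h1
  exact h1

lemma cj_s (h2 : Commute s t) (h4 : s * a * s⁻¹ = a * cj a t 1) (i : ℕ) :
    s * cj a t i * s⁻¹ = cj a t i * cj a t (i + 1) := by
  have h5 : Commute s (t ^ i) := h2.pow_right i
  have h6 : s * cj a t i * s⁻¹ = t ^ i * (s * a * s⁻¹) * (t ^ i)⁻¹ := by
    have h7 : s * t ^ i = t ^ i * s := h5
    have h8 : (t ^ i)⁻¹ * s⁻¹ = s⁻¹ * (t ^ i)⁻¹ := by
      rw [← mul_inv_rev, ← mul_inv_rev, h7]
    calc s * cj a t i * s⁻¹ = (s * t ^ i) * a * ((t ^ i)⁻¹ * s⁻¹) := by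
          simp only [cj, mul_assoc]
      _ = t ^ i * (s * a * s⁻¹) * (t ^ i)⁻¹ := by
          rw [h7, h8]
          simp only [mul_assoc]
  rw [h6, h4, ← cj_shift a t 1 i]
  simp only [cj, mul_assoc, inv_mul_cancel_left]

lemma comm_all (h2 : Commute s t) (h3 : Commute a (cj a t 1))
    (h4 : s * a * s⁻¹ = a * cj a t 1) (m : ℕ) :
    Commute a (cj a t m) ∧ Commute a (cj a t (m + 1)) := by
  induction m with
  | zero =>
    refine ⟨?_, h3⟩
    rw [cj_zero]
  | succ m ih =>
    refine ⟨ih.2, ?_⟩
    have h5 := ih.2.conj s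
    rw [h4, cj_s a s t h2 h4] at h5
    have hxz : Commute a (cj a t (m + 1)) := ih.2
    have hyz : Commute (cj a t 1) (cj a t (m + 1)) := by
      have := comm_shift a t ih.1 1
      rwa [Nat.add_comm 1 m] at this
    have hyw : Commute (cj a t 1) (cj a t (m + 1 + 1)) := by
      have := comm_shift a t ih.2 1
      rwa [Nat.add_comm 1 (m + 1)] at this
    generalize cj a t (m + 1 + 1) = w at *
    generalize cj a t (m + 1) = z at *
    generalize cj a t 1 = y at *
    have e : z * (a * w) * y = z * (w * a) * y := by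
      calc z * (a * w) * y = (z * a) * (w * y) := by simp only [mul_assoc]
        _ = (a * z) * (y * w) := by rw [hxz.eq, hyw.eq]
        _ = a * (z * y) * w := by simp only [mul_assoc]
        _ = a * (y * z) * w := by rw [hyz.eq]
        _ = a * y * (z * w) := by simp only [mul_assoc]
        _ = z * w * (a * y) := h5.eq
        _ = z * (w * a) * y := by simp only [mul_assoc]
    exact mul_left_cancel (mul_right_cancel e)

lemma sq_one (h1 : a * a = 1) (h2 : Commute s t) (h3 : Commute a (cj a t 1))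
    (h4 : s * a * s⁻¹ = a * cj a t 1) (m : ℕ) : (a * cj a t m) * (a * cj a t m) = 1 := by
  have h5 := (comm_all a s t h2 h3 h4 m).1
  have h6 : cj a t m * cj a t m = 1 := by
    calc cj a t m * cj a t m = t ^ m * (a * a) * (t ^ m)⁻¹ := by
          simp only [cj, mul_assoc, inv_mul_cancel_left]
      _ = 1 := by rw [h1, mul_one, mul_inv_cancel]
  calc (a * cj a t m) * (a * cj a t m) = (a * cj a t m) * (cj a t m * a) := by rw [h5.eq]
    _ = a * (cj a t m * cj a t m) * a := by simp only [mul_assoc]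
    _ = 1 := by rw [h6, mul_one, h1]

end identities

section presented

lemma rels_finite : rels.Finite := by
  unfold rels relators
  exact Set.toFinite _

/-- The generators. -/
def gen (i : Fin 3) : Gr := PresentedGroup.of i

lemma rel_eq {x y : FreeGroup (Fin 3)} (h : x * y⁻¹ ∈ rels) :
    PresentedGroup.mk rels x = PresentedGroup.mk rels y := by
  have h1 := PresentedGroup.one_of_mem h
  rw [map_mul, map_inv] at h1
  exact mul_inv_eq_one.1 h1

lemma gen_zero_sq : gen 0 * gen 0 = 1 :=
  PresentedGroup.one_of_mem (rels := rels) (x := FreeGroup.of 0 * FreeGroup.of 0)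
    (by simp [rels, relators])

lemma gen_comm : Commute (gen 1) (gen 2) :=
  rel_eq (x := FreeGroup.of 1 * FreeGroup.of 2) (y := FreeGroup.of 2 * FreeGroup.of 1)
    (by simp only [rels, relators, Set.mem_insert_iff, true_or, or_true])

lemma gen_comm' : Commute (gen 0) (cj (gen 0) (gen 2) 1) := by
  have h := rel_eq (x := FreeGroup.of 0 * (FreeGroup.of 2 * FreeGroup.of 0 * (FreeGroup.of 2)⁻¹))
    (y := (FreeGroup.of 2 * FreeGroup.of 0 * (FreeGroup.of 2)⁻¹) * FreeGroup.of 0)
    (by simp only [rels, relators, Set.mem_insert_iff, true_or, or_true])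
  rw [cj, pow_one]
  exact h

lemma gen_s : gen 1 * gen 0 * (gen 1)⁻¹ = gen 0 * cj (gen 0) (gen 2) 1 := by
  have h := rel_eq (x := FreeGroup.of 1 * FreeGroup.of 0 * (FreeGroup.of 1)⁻¹)
    (y := FreeGroup.of 0 * (FreeGroup.of 2 * FreeGroup.of 0 * (FreeGroup.of 2)⁻¹))
    (by simp only [rels, relators, Set.mem_insert_iff, Set.mem_singleton_iff, or_true])
  rw [cj, pow_one]
  exact h

/-- The involutions. -/
def invol (m : ℕ) : Gr := gen 0 * cj (gen 0) (gen 2) m

lemma invol_sq (m : ℕ) : invol m * invol m = 1 :=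
  sq_one (gen 0) (gen 1) (gen 2) gen_zero_sq gen_comm gen_comm' gen_s m

end presented

end Pool.Agent.W484.SG
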