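import Mathlib
import Pool.Agent.W484.SG.Grp

/-!
# Permutation representations of the group on finite fields of characteristic two
-/

set_option autoImplicit false

namespace Pool.Agent.W484.SG

section field

variable {F : Type} [Field F] [CharP F 2] (θ : F) (h0 : θ ≠ 0) (h1 : 1 + θ ≠ 0)

/-- The permutations of `F` for the generators. -/
noncomputable def pm : Fin 3 → Equiv.Perm F
  | 0 => Equiv.addRight 1
  | 1 => Equiv.mulLeft₀ (1 + θ) h1
  | 2 => Equiv.mulLeft₀ θ h0

lemma pm_zero (x : F) : pm θ h0 h1 0 x = x + 1 := rfl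
lemma pm_one (x : F) : pm θ h0 h1 1 x = (1 + θ) * x := rfl
lemma pm_two (x : F) : pm θ h0 h1 2 x = θ * x := rfl

lemma pm_two_pow (m : ℕ) (x : F) : (pm θ h0 h1 2 ^ m) x = θ ^ m * x := by
  induction m with
  | zero => simp
  | succ m ih => rw [pow_succ', Equiv.Perm.mul_apply, ih, pm_two, pow_succ', mul_assoc]

lemma cj_pm (m : ℕ) (x : F) : cj (pm θ h0 h1 0) (pm θ h0 h1 2) m x = x + θ ^ m := by
  obtain ⟨y, rfl⟩ := (pm θ h0 h1 2 ^ m).surjective x
  have hy : (pm θ h0 h1 2 ^ m)⁻¹ ((pm θ h0 h1 2 ^ m) y) = y :=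
    Equiv.symm_apply_apply (pm θ h0 h1 2 ^ m) y
  rw [cj, Equiv.Perm.mul_apply, Equiv.Perm.mul_apply, hy, pm_two_pow,
    pm_two_pow, pm_zero]
  ring

lemma cj_pm_one (x : F) :
    (pm θ h0 h1 2 * pm θ h0 h1 0 * (pm θ h0 h1 2)⁻¹) x = x + θ := by
  have h := cj_pm θ h0 h1 1 x
  rw [cj, pow_one, pow_one] at h
  exact h

lemma add_self_two (x : F) : x + x = 0 := CharTwo.add_self_eq_zero x

lemma pm_rels : ∀ r ∈ rels, FreeGroup.lift (pm θ h0 h1) r = 1 := by
  intro r hr
  simp only [rels, relators, Set.mem_insert_iff, Set.mem_singleton_iff] at hr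
  rcases hr with rfl | rfl | rfl | rfl
  · rw [map_mul, FreeGroup.lift_apply_of]
    ext x
    rw [Equiv.Perm.mul_apply, pm_zero, pm_zero, add_assoc, add_self_two, add_zero]
    rfl
  · rw [map_mul, map_inv, mul_inv_eq_one, map_mul, map_mul, FreeGroup.lift_apply_of,
      FreeGroup.lift_apply_of]
    ext x
    rw [Equiv.Perm.mul_apply, Equiv.Perm.mul_apply, pm_one, pm_one, pm_two, pm_two]
    ring
  · rw [map_mul, map_inv, mul_inv_eq_one]
    simp only [map_mul, map_inv, FreeGroup.lift_apply_of]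
    ext x
    rw [Equiv.Perm.mul_apply (pm θ h0 h1 0), Equiv.Perm.mul_apply _ (pm θ h0 h1 0), cj_pm_one,
      cj_pm_one, pm_zero, pm_zero]
    ring
  · rw [map_mul, map_inv, mul_inv_eq_one]
    simp only [map_mul, map_inv, FreeGroup.lift_apply_of]
    ext x
    obtain ⟨y, rfl⟩ := (pm θ h0 h1 1).surjective x
    have hy : (pm θ h0 h1 1)⁻¹ (pm θ h0 h1 1 y) = y := Equiv.symm_apply_apply (pm θ h0 h1 1) y
    rw [Equiv.Perm.mul_apply (pm θ h0 h1 1 * pm θ h0 h1 0), Equiv.Perm.mul_apply (pm θ h0 h1 1),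
      hy, Equiv.Perm.mul_apply (pm θ h0 h1 0), cj_pm_one, pm_zero, pm_zero,
      pm_one, pm_one]
    ring

/-- The action of the group on `F`. -/
noncomputable def rep : Gr →* Equiv.Perm F := PresentedGroup.toGroup (pm_rels θ h0 h1)

lemma rep_gen (i : Fin 3) : rep θ h0 h1 (gen i) = pm θ h0 h1 i :=
  PresentedGroup.toGroup.of (pm_rels θ h0 h1)

lemma rep_invol (m : ℕ) (x : F) : rep θ h0 h1 (invol m) x = x + (θ ^ m + 1) := by
  rw [invol, map_mul, rep_gen, cj, map_mul, map_mul, map_inv, map_pow, rep_gen, rep_gen,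
    Equiv.Perm.mul_apply]
  have h := cj_pm θ h0 h1 m x
  rw [cj] at h
  rw [h, pm_zero, add_assoc]

variable (k : Type) [Field k] [CharZero k] [Fintype F]

open scoped Classical in
/-- The character of the representation, up to normalisation. -/
noncomputable def chr (g : Gr) : k :=
  2 / (Fintype.card F : k) * (∑ x : F, if rep θ h0 h1 g x = x then 1 else 0) - 1

lemma card_ne : (Fintype.card F : k) ≠ 0 := by
  exact_mod_cast Fintype.card_ne_zero

lemma chr_one : chr θ h0 h1 k 1 = 1 := by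
  have h := card_ne (F := F) k
  rw [chr, map_one]
  simp only [Equiv.Perm.coe_one, id_eq, if_true, Finset.sum_const, Finset.card_univ, nsmul_eq_mul,
    mul_one]
  field_simp
  norm_num

lemma chr_mul (g h : Gr) : chr θ h0 h1 k (g * h) = chr θ h0 h1 k (h * g) := by
  classical
  rw [chr, chr]
  congr 2
  refine Fintype.sum_equiv (rep θ h0 h1 h) _ _ (fun x => ?_)
  rw [map_mul, map_mul, Equiv.Perm.mul_apply, Equiv.Perm.mul_apply]
  simp only [EmbeddingLike.apply_eq_iff_eq]

open scoped Classical in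
lemma chr_invol (m : ℕ) : chr θ h0 h1 k (invol m) = if θ ^ m = 1 then 1 else -1 := by
  have h := card_ne (F := F) k
  rw [chr]
  simp only [rep_invol, add_eq_left]
  by_cases e : θ ^ m = 1
  · rw [if_pos e, e]
    have h2 : (1 : F) + 1 = 0 := add_self_two 1
    simp only [h2, if_true, Finset.sum_const, Finset.card_univ, nsmul_eq_mul, mul_one]
    field_simp
    norm_num
  · rw [if_neg e]
    have h2 : θ ^ m + 1 ≠ 0 := by
      intro h3
      apply e
      have h4 : θ ^ m + 1 + 1 = 1 := by rw [h3, zero_add]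
      rwa [add_assoc, add_self_two, add_zero] at h4
    simp only [h2, if_false, Finset.sum_const_zero, mul_zero, zero_sub]

end field

/-- The numbers `2 ^ p - 1` for the primes `p`. -/
noncomputable def mer (i : ℕ) : ℕ := 2 ^ (Nat.nth Nat.Prime i) - 1

lemma mer_dvd (i j : ℕ) : mer i ∣ mer j ↔ i = j := by
  constructor
  · intro h
    by_contra hne
    have h1 : Nat.nth Nat.Prime i ≠ Nat.nth Nat.Prime j := fun e =>
      hne (Nat.nth_injective Nat.infinite_setOfPred_prime e)
    have h2 : Nat.Coprime (Nat.nth Nat.Prime i) (Nat.nth Nat.Prime j) :=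
      (Nat.coprime_primes (Nat.prime_nth_prime i) (Nat.prime_nth_prime j)).2 h1
    have h3 : Nat.gcd (mer i) (mer j) = mer i := Nat.gcd_eq_left h
    rw [mer, mer, Nat.pow_sub_one_gcd_pow_sub_one, h2, pow_one] at h3
    have h4 : 2 ≤ Nat.nth Nat.Prime i := (Nat.prime_nth_prime i).two_le
    have h5 : 2 ^ 2 ≤ 2 ^ (Nat.nth Nat.Prime i) := Nat.pow_le_pow_right (by norm_num) h4
    omega
  · rintro rfl
    exact dvd_rfl

/-- There is a class function with prescribed values on the involutions. -/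
lemma exists_chr (k : Type) [Field k] [CharZero k] (i : ℕ) :
    ∃ χ : Gr → k, (∀ g h, χ (g * h) = χ (h * g)) ∧ χ 1 = 1 ∧
      ∀ j, χ (invol (mer j)) = if i = j then 1 else -1 := by
  have hp : Nat.Prime (Nat.nth Nat.Prime i) := Nat.prime_nth_prime i
  let F := GaloisField 2 (Nat.nth Nat.Prime i)
  have : Fintype F := Fintype.ofFinite F
  obtain ⟨g, hg⟩ := IsCyclic.exists_ofOrder_eq_natCard (α := Fˣ)
  have hc : Nat.card Fˣ = mer i := by
    rw [Nat.card_units, mer, GaloisField.card 2 _ hp.ne_zero]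
  rw [hc] at hg
  have h0 : (g : F) ≠ 0 := g.ne_zero
  have hpow : ∀ m : ℕ, (g : F) ^ m = 1 ↔ mer i ∣ m := by
    intro m
    rw [← hg, orderOf_dvd_iff_pow_eq_one, ← Units.val_pow_eq_pow_val, Units.val_eq_one]
  have h1 : 1 + (g : F) ≠ 0 := by
    intro h
    have h2 : (g : F) = 1 := by
      have h3 : 1 + (1 + (g : F)) = 1 := by rw [h, add_zero]
      rwa [← add_assoc, add_self_two, zero_add] at h3
    have h4 : mer i ∣ 1 := (hpow 1).1 (by rw [pow_one, h2])
    have h5 : 2 ^ 2 ≤ 2 ^ (Nat.nth Nat.Prime i) := Nat.pow_le_pow_right (by norm_num) hp.two_le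
    have h6 : mer i = 1 := Nat.dvd_one.1 h4
    rw [mer] at h6
    omega
  refine ⟨chr (g : F) h0 h1 k, chr_mul _ h0 h1 k, chr_one _ h0 h1 k, fun j => ?_⟩
  classical
  rw [chr_invol]
  exact if_congr ((hpow _).trans (mer_dvd i j)) rfl rfl

end Pool.Agent.W484.SG
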