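import Mathlib
import Pool.Agent.W484.SG.Stm
import Pool.Agent.W484.SG.Rep

/-!
# The group ring acts faithfully
-/

set_option autoImplicit false

open CategoryTheory

namespace Pool.Agent.W484.SG

universe u v

section functional

variable {k : Type} [Field k] {H : Type} [Group H] (ψ : H → k)

/-- The linear extension of a function on the group. -/
noncomputable def fn : MonoidAlgebra k H →ₗ[k] k :=
  (Finsupp.linearCombination k ψ) ∘ₗ (MonoidAlgebra.coeffLinearEquiv k).toLinearMap

omit [Group H] in
lemma fn_single (h : H) (a : k) : fn ψ (MonoidAlgebra.single h a) = a * ψ h := by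
  simp [fn, Finsupp.linearCombination_single]

lemma fn_mul_comm (hψ : ∀ g h, ψ (g * h) = ψ (h * g)) (x y : MonoidAlgebra k H) :
    fn ψ (x * y) = fn ψ (y * x) := by
  induction x using MonoidAlgebra.induction_linear with
  | zero => simp
  | add x x' hx hx' => rw [add_mul, mul_add, map_add, map_add, hx, hx']
  | single g a =>
    induction y using MonoidAlgebra.induction_linear with
    | zero => simp
    | add y y' hy hy' => rw [mul_add, add_mul, map_add, map_add, hy, hy']
    | single h b =>
      rw [MonoidAlgebra.single_mul_single, MonoidAlgebra.single_mul_single, fn_single, fn_single,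
        hψ, mul_comm a b]

/-- The functional on the quotient by commutators. -/
noncomputable def fnq (hψ : ∀ g h, ψ (g * h) = ψ (h * g)) :
    MonoidAlgebra k H ⧸ comms (MonoidAlgebra k H) →+ k :=
  QuotientAddGroup.lift _ (fn ψ).toAddMonoidHom (by
    rw [comms, AddSubgroup.closure_le]
    rintro _ ⟨x, y, rfl⟩
    change fn ψ (x * y - y * x) = 0
    rw [map_sub, fn_mul_comm ψ hψ, sub_self])

lemma fnq_mk (hψ : ∀ g h, ψ (g * h) = ψ (h * g)) (x : MonoidAlgebra k H) :
    fnq ψ hψ (QuotientAddGroup.mk x) = fn ψ x := rfl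

variable {E : Type} [Group E] [Fintype E] (φ : E →* H)

/-- The averaging idempotent. -/
noncomputable def avg (k : Type) [Field k] : MonoidAlgebra k H :=
  ∑ ε, MonoidAlgebra.single (φ ε) ((Fintype.card E : k)⁻¹)

lemma avg_mul [CharZero k] : avg φ k * avg φ k = avg φ k := by
  have hc : (Fintype.card E : k) ≠ 0 := by exact_mod_cast Fintype.card_ne_zero
  have h1 : ∀ ε : E, ∑ δ, MonoidAlgebra.single (φ ε) ((Fintype.card E : k)⁻¹) *
      MonoidAlgebra.single (φ δ) ((Fintype.card E : k)⁻¹) =
      ∑ δ, MonoidAlgebra.single (φ δ) ((Fintype.card E : k)⁻¹ * (Fintype.card E : k)⁻¹) := by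
    intro ε
    refine Fintype.sum_equiv (Equiv.mulLeft ε) _ _ (fun δ => ?_)
    rw [MonoidAlgebra.single_mul_single, ← map_mul]
    rfl
  rw [avg, Finset.sum_mul_sum, Finset.sum_congr rfl fun ε _ => h1 ε, Finset.sum_const,
    Finset.card_univ, Finset.smul_sum]
  refine Finset.sum_congr rfl fun δ _ => ?_
  rw [← Nat.cast_smul_eq_nsmul k, MonoidAlgebra.smul_single, smul_eq_mul, ← mul_assoc,
    mul_inv_cancel₀ hc, one_mul]

lemma fn_avg : fn ψ (avg φ k) = (Fintype.card E : k)⁻¹ * ∑ ε, ψ (φ ε) := by
  rw [avg, map_sum, Finset.mul_sum]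
  exact Finset.sum_congr rfl fun ε _ => fn_single ψ _ _

end functional

section model

variable (k : Type) [Field k] (n : ℕ)

/-- The homomorphism from the group with two elements for an involution. -/
noncomputable def two (m : ℕ) : ℤˣ →* Gr where
  toFun u := if u = 1 then 1 else invol (mer m)
  map_one' := by rw [if_pos rfl]
  map_mul' := by
    intro u v
    rcases Int.units_eq_one_or u with rfl | rfl <;> rcases Int.units_eq_one_or v with rfl | rfl
    · simp
    · simp
    · simp
    · have h1 : ¬ ((-1 : ℤˣ) = 1) := by decide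
      have h2 : (-1 : ℤˣ) * -1 = 1 := by decide
      rw [if_neg h1, h2, if_pos rfl, invol_sq]

/-- The homomorphism from the elementary abelian group. -/
noncomputable def hom : (Fin n → ℤˣ) →* (Fin n → Gr) where
  toFun ε i := two i (ε i)
  map_one' := by
    funext i
    exact map_one (two i)
  map_mul' := by
    intro ε δ
    funext i
    exact map_mul (two i) _ _

variable {n}

lemma swap_avg (σ : Equiv.Perm (Fin n)) :
    swap k Gr σ (avg (hom n) k) = avg ((coord Gr σ).comp (hom n)) k := by
  rw [avg, avg, map_sum]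
  refine Finset.sum_congr rfl fun ε _ => ?_
  rw [swap, MonoidAlgebra.mapDomainRingHom_apply, MonoidAlgebra.mapDomain_single]
  rfl

/-- The characters. -/
noncomputable def ch [CharZero k] (i : ℕ) : Gr → k := (exists_chr k i).choose

variable [CharZero k]

/-- The product of the characters. -/
noncomputable def prodch (τ : Equiv.Perm (Fin n)) (g : Fin n → Gr) : k :=
  ∏ i, ch k (τ.symm i : Fin n) (g i)

lemma prodch_mul (τ : Equiv.Perm (Fin n)) (g h : Fin n → Gr) :
    prodch k τ (g * h) = prodch k τ (h * g) :=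
  Finset.prod_congr rfl fun i _ => (exists_chr k _).choose_spec.1 (g i) (h i)

lemma sum_two (i : ℕ) (j : ℕ) : ∑ u : ℤˣ, ch k i (two j u) = if i = j then 2 else 0 := by
  have h := (exists_chr k i).choose_spec
  have h0 : two j (-1) = invol (mer j) := by
    change (if (-1 : ℤˣ) = 1 then (1 : Gr) else invol (mer j)) = _
    exact if_neg (by decide)
  have h1 : (Finset.univ : Finset ℤˣ) = {1, -1} := rfl
  rw [h1, Finset.sum_pair (by decide), map_one, h0]
  change (exists_chr k i).choose 1 + (exists_chr k i).choose (invol (mer j)) = _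
  rw [h.2.1, h.2.2 j]
  by_cases e : i = j
  · rw [if_pos e, if_pos e]
    norm_num
  · rw [if_neg e, if_neg e]
    norm_num

lemma fn_swap_avg (τ σ : Equiv.Perm (Fin n)) :
    fn (prodch k τ) (swap k Gr σ (avg (hom n) k)) = if σ = τ then 1 else 0 := by
  rw [swap_avg, fn_avg]
  have h1 : ∀ ε : Fin n → ℤˣ, prodch k τ (((coord Gr σ).comp (hom n)) ε) =
      ∏ j, ch k (τ.symm (σ j) : Fin n) (two j (ε j)) := by
    intro ε
    rw [prodch, ← Equiv.prod_comp σ]
    refine Finset.prod_congr rfl fun j _ => ?_
    change ch k _ (two (σ.symm (σ j) : Fin n) (ε (σ.symm (σ j)))) = _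
    rw [Equiv.symm_apply_apply]
  have h2 : ∑ ε : Fin n → ℤˣ, ∏ j, ch k (τ.symm (σ j) : Fin n) (two j (ε j)) =
      ∏ j : Fin n, ∑ u : ℤˣ, ch k (τ.symm (σ j) : Fin n) (two j u) := by
    have h3 := Finset.prod_univ_sum (fun _ : Fin n => (Finset.univ : Finset ℤˣ))
      (fun j u => ch k (τ.symm (σ j) : Fin n) (two j u))
    rw [Fintype.piFinset_univ] at h3
    exact h3.symm
  rw [Finset.sum_congr rfl fun ε _ => h1 ε, h2, Finset.prod_congr rfl fun j _ => sum_two k _ _]
  have hcard : (Fintype.card (Fin n → ℤˣ) : k) = 2 ^ n := by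
    rw [Fintype.card_pi_const, Fintype.card_units_int]
    push_cast
    rfl
  rw [hcard]
  by_cases e : σ = τ
  · rw [if_pos e, e]
    simp only [Equiv.symm_apply_apply, if_true, Finset.prod_const, Finset.card_univ,
      Fintype.card_fin]
    exact inv_mul_cancel₀ (pow_ne_zero n two_ne_zero)
  · rw [if_neg e]
    obtain ⟨j, hj⟩ : ∃ j, σ j ≠ τ j := by
      by_contra hc
      push Not at hc
      exact e (Equiv.ext hc)
    rw [Finset.prod_eq_zero (Finset.mem_univ j), mul_zero]
    refine if_neg fun h => hj ?_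
    have h4 : τ.symm (σ j) = j := Fin.ext h
    rw [← h4, Equiv.apply_symm_apply, h4]

variable {k} {C : Type u} [Category.{v} C] [Preadditive C] [Linear ℚ C]

lemma map_smul_rat {K M : Type*} [Field K] [CharZero K] [AddCommGroup M] [Module ℚ M]
    (f : M →+ K) (q : ℚ) (x : M) : f (q • x) = (q : K) * f x := by
  rw [map_rat_smul f q x, Rat.smul_def]

theorem act_ne_zero (m : Model k Gr n C) (c : Equiv.Perm (Fin n) → ℚ) (hc : c ≠ 0) :
    act m c ≠ 0 := by
  intro h
  apply hc
  funext τ
  have hid : avg (hom n) k * avg (hom n) k = avg (hom n) k := avg_mul (hom n)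
  have hid' : ∀ σ, swap k Gr σ (avg (hom n) k) * swap k Gr σ (avg (hom n) k) =
      swap k Gr σ (avg (hom n) k) := by
    intro σ
    rw [← map_mul, hid]
  let θ : (m.P ⟶ m.X) →+ k := (fnq (prodch k τ) (prodch_mul k τ)).comp m.trace
  have h1 : θ (m.cls _ hid ≫ act m c) = 0 := by rw [h, Limits.comp_zero, map_zero]
  have h2 : θ (m.cls _ hid ≫ act m c) = (c τ : k) := by
    rw [act, Preadditive.comp_sum, map_sum, Finset.sum_eq_single τ]
    · rw [Linear.comp_smul, m.natural τ _ hid _ (hid' τ) rfl, map_smul_rat θ]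
      change _ * fnq (prodch k τ) (prodch_mul k τ) (m.trace _) = _
      rw [m.trace_cls, fnq_mk, fn_swap_avg, if_pos rfl, mul_one]
    · intro σ _ hσ
      rw [Linear.comp_smul, m.natural σ _ hid _ (hid' σ) rfl, map_smul_rat θ]
      change _ * fnq (prodch k τ) (prodch_mul k τ) (m.trace _) = _
      rw [m.trace_cls, fnq_mk, fn_swap_avg, if_neg hσ, mul_zero]
    · intro hc
      exact absurd (Finset.mem_univ τ) hc
  rw [h1] at h2
  have h3 : c τ = 0 := by exact_mod_cast h2.symm
  rw [h3]
  rfl

end model

end Pool.Agent.W484.SG
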